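import Pool.Agent.helper91.HZ.Spec

/-!
# Row hz:BTO
-/

namespace Pool.Agent.HZ

open Matrix Polynomial Pool.Agent.GO Pool.Agent.AR Pool.Agent.RG MeasureTheory NumberField

theorem BTO_zero {J : Type} (𝒰 : Ultrafilter J) {κ : J → Type} [∀ j, Field (κ j)]
    (p : J → ℕ) {k : Type} [Field k] (π : (∀ j, κ j) →+* k) (h : IsUP 𝒰 p π) {N : ℕ}
    (R : MvPolynomial (Fin N) (∀ j, κ j)) (hR : MvPolynomial.map π R = 0) :
    ∀ᶠ j in (𝒰 : Filter J), ∀ t, vl R j t = 0 := by
  have h1 : ∀ᶠ j in (𝒰 : Filter J), ∀ d ∈ R.support, R.coeff d j = 0 := by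
    rw [Filter.eventually_all_finset]
    intro d _
    exact (h.zero _).1 (by rw [← MvPolynomial.coeff_map, hR, MvPolynomial.coeff_zero])
  filter_upwards [h1] with j hj t
  have h2 : MvPolynomial.map (Pi.evalRingHom κ j) R = 0 := by
    ext d
    rw [MvPolynomial.coeff_map, MvPolynomial.coeff_zero]
    by_cases hd : d ∈ R.support
    · exact hj d hd
    · rw [MvPolynomial.notMem_support_iff.1 hd, map_zero]
  rw [vl, h2, map_zero]

section
variable {J : Type} {κ : J → Type} [∀ j, Field (κ j)] {N : ℕ}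

theorem BTO_vl_bind {m : ℕ} (y : Fin m → MvPolynomial (Fin N) (∀ j, κ j))
    (f : MvPolynomial (Fin m) (∀ j, κ j)) (j : J) (t : Fin N → ℕ) :
    vl (MvPolynomial.bind₁ y f) j t =
      MvPolynomial.eval (fun a => vl (y a) j t) (MvPolynomial.map (Pi.evalRingHom κ j) f) := by
  unfold vl
  rw [MvPolynomial.map_bind₁]
  exact MvPolynomial.eval₂Hom_bind₁ _ _ _ _

theorem BTO_vl_sum {ι : Type} (s : Finset ι) (f : ι → MvPolynomial (Fin N) (∀ j, κ j)) (j : J)
    (t : Fin N → ℕ) : vl (∑ i ∈ s, f i) j t = ∑ i ∈ s, vl (f i) j t := by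
  unfold vl
  rw [map_sum, map_sum]

theorem BTO_vl_mul (f g : MvPolynomial (Fin N) (∀ j, κ j)) (j : J)
    (t : Fin N → ℕ) : vl (f * g) j t = vl f j t * vl g j t := by
  unfold vl
  rw [map_mul, map_mul]

theorem BTO_vl_pow (f : MvPolynomial (Fin N) (∀ j, κ j)) (n : ℕ) (j : J)
    (t : Fin N → ℕ) : vl (f ^ n) j t = vl f j t ^ n := by
  unfold vl
  rw [map_pow, map_pow]

end

theorem BTO : BTO_stmt := by
  intro J 𝒰 κ _ p k _ π hUP N m y z halg
  obtain ⟨G, hG0, hGz⟩ := halg
  have hc : ∀ i : ℕ, ∃ f : MvPolynomial (Fin m) (∀ j, κ j),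
      MvPolynomial.bind₁ (fun a => MvPolynomial.map π (y a)) (MvPolynomial.map π f) =
        (G.coeff i : MvPolynomial (Fin N) k) := by
    intro i
    have h1 : ∀ w ∈ Algebra.adjoin k (Set.range fun a => MvPolynomial.map π (y a)),
        ∃ g : MvPolynomial (Fin m) k, MvPolynomial.aeval (fun a => MvPolynomial.map π (y a)) g = w := by
      intro w hw
      rw [Algebra.adjoin_range_eq_range_aeval] at hw
      exact hw
    obtain ⟨g, hg⟩ := h1 _ (G.coeff i).2
    obtain ⟨f, hf⟩ := MvPolynomial.map_surjective π hUP.surj g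
    refine ⟨f, ?_⟩
    rw [hf]
    exact hg
  choose f hf using hc
  have hmap : ∀ i, MvPolynomial.map π (MvPolynomial.bind₁ y (f i)) = (G.coeff i : MvPolynomial (Fin N) k) := by
    intro i
    rw [MvPolynomial.map_bind₁, ← hf i]
  set R : MvPolynomial (Fin N) (∀ j, κ j) :=
    ∑ i ∈ Finset.range (G.natDegree + 1), MvPolynomial.bind₁ y (f i) * z ^ i with hR
  have hR0 : MvPolynomial.map π R = 0 := by
    rw [hR, map_sum, ← hGz, Polynomial.aeval_eq_sum_range]
    refine Finset.sum_congr rfl fun i _ => ?_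
    rw [map_mul, map_pow, hmap, Algebra.smul_def]
    rfl
  refine ⟨MvPolynomial.bind₁ y (f G.natDegree), G.natDegree, ?_, ?_⟩
  · rw [hmap]
    intro h0
    have h1 : G.coeff G.natDegree = 0 := Subtype.ext h0
    exact hG0 (Polynomial.leadingCoeff_eq_zero.1 h1)
  · filter_upwards [BTO_zero 𝒰 p π hUP R hR0] with j hj η
    set F : Polynomial (κ j) := ∑ i ∈ Finset.range (G.natDegree + 1),
      Polynomial.C (MvPolynomial.eval η (MvPolynomial.map (Pi.evalRingHom κ j) (f i))) * Polynomial.X ^ i with hF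
    classical
    refine ⟨F.roots.toFinset, ?_, ?_⟩
    · refine (Multiset.toFinset_card_le _).trans ((Polynomial.card_roots' F).trans ?_)
      refine Polynomial.natDegree_sum_le_of_forall_le _ _ fun i hi => ?_
      exact (Polynomial.natDegree_C_mul_X_pow_le _ _).trans (Nat.lt_succ_iff.1 (Finset.mem_range.1 hi))
    · intro t ht hη
      have hη' : (fun a => vl (y a) j t) = η := funext hη
      have hv : ∀ i, vl (MvPolynomial.bind₁ y (f i)) j t =
          MvPolynomial.eval η (MvPolynomial.map (Pi.evalRingHom κ j) (f i)) := by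
        intro i
        rw [BTO_vl_bind, hη']
      have hF0 : F ≠ 0 := by
        intro h0
        apply ht
        have h1 : F.coeff G.natDegree = 0 := by rw [h0, Polynomial.coeff_zero]
        rw [hF, Polynomial.finsetSum_coeff, Finset.sum_eq_single G.natDegree] at h1
        · rw [Polynomial.coeff_C_mul, Polynomial.coeff_X_pow_self, mul_one] at h1
          rw [hv, h1]
        · intro i _ hi
          rw [Polynomial.coeff_C_mul, Polynomial.coeff_X_pow, if_neg (Ne.symm hi), mul_zero]
        · intro hi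
          exact absurd (Finset.mem_range.2 (Nat.lt_succ_self _)) hi
      rw [Multiset.mem_toFinset, Polynomial.mem_roots hF0, Polynomial.IsRoot.def, hF,
        Polynomial.eval_finsetSum, ← hj t, hR, BTO_vl_sum]
      refine Finset.sum_congr rfl fun i _ => ?_
      rw [Polynomial.eval_mul, Polynomial.eval_C, Polynomial.eval_pow, Polynomial.eval_X, BTO_vl_mul,
        BTO_vl_pow, hv]

end Pool.Agent.HZ
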